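import Pool.Agent.W375.MT.Jet

/-!
# MT-SUM: the class of the jets
-/

set_option autoImplicit false

namespace Pool.Agent.W375.MT

open MvPolynomial
open Pool.Agent.W428.MOT
open Pool.Agent.W426.SM (AffInd gord ford IsRay face)

section Weight

variable {n r : ℕ} {R : Type} [CommRing R]

/-- the weight of `u`, one coordinate -/
theorem weight_coord (L Y : R) (hLY : L * Y = 1) (N k : ℕ) (hk : k ≤ N + 1) (F : Prop)
    [Decidable F] :
    (if F ∧ k ≤ N then L - 1 else 1) * (if F ∧ ¬ k ≤ N then L else 1) * L ^ (2 * N + 1 - k) *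
        Y ^ (2 * N + 1) =
      (if F then L else 1) *
        (if F then (if k ≤ N then (1 - Y) * Y ^ k else Y ^ (N + 1)) else Y ^ k) := by
  have h1 : L ^ (2 * N + 1 - k) * Y ^ (2 * N + 1) = Y ^ k := by
    have h2 : Y ^ (2 * N + 1) = Y ^ (2 * N + 1 - k) * Y ^ k := by
      rw [← pow_add]
      congr 1
      omega
    rw [h2, ← mul_assoc, ← mul_pow, hLY, one_pow, one_mul]
  rw [mul_assoc _ (L ^ (2 * N + 1 - k)), h1]
  by_cases hF : F
  · by_cases hN : k ≤ N
    · simp only [hF, hN, and_self, if_true, not_true_eq_false, and_false, if_false, mul_one]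
      linear_combination (Y ^ k) * hLY
    · have hk' : k = N + 1 := by omega
      subst hk'
      simp [hF]
  · simp [hF]

theorem weight_eq (A : Fin n → ℕ) (m : Fin r → Fin n → ℕ) (J : Finset (Fin n))
    (τ : Finset (Fin r)) (N : ℕ) (u : Fin n → ℕ) (hu : ∀ i, u i ≤ N + 1) (L Y : R)
    (hLY : L * Y = 1) :
    (L - 1) ^ ((free A m J τ).filter fun i => u i ≤ N).card *
        L ^ ((free A m J τ).filter fun i => ¬ u i ≤ N).card *
        L ^ (∑ i, (2 * N + 1 - u i)) * Y ^ (n * (2 * N + 1)) =
      L ^ (free A m J τ).card * Polynomial.eval₂ (Int.castRingHom R) Y (wt A m J τ N u) := by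
  have h1 : (L - 1) ^ ((free A m J τ).filter fun i => u i ≤ N).card =
      ∏ i, if i ∈ free A m J τ ∧ u i ≤ N then L - 1 else 1 := by
    rw [← Finset.prod_const, ← Finset.prod_filter]
    refine Finset.prod_congr ?_ fun _ _ => rfl
    ext i
    simp
  have h2 : L ^ ((free A m J τ).filter fun i => ¬ u i ≤ N).card =
      ∏ i, if i ∈ free A m J τ ∧ ¬ u i ≤ N then L else 1 := by
    rw [← Finset.prod_const, ← Finset.prod_filter]
    refine Finset.prod_congr ?_ fun _ _ => rfl
    ext i
    simp
  have h3 : L ^ (∑ i, (2 * N + 1 - u i)) = ∏ i, L ^ (2 * N + 1 - u i) :=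
    (Finset.prod_pow_eq_pow_sum _ _ _).symm
  have h4 : Y ^ (n * (2 * N + 1)) = ∏ _i : Fin n, Y ^ (2 * N + 1) := by
    rw [Finset.prod_const, Finset.card_univ, Fintype.card_fin, ← pow_mul, mul_comm]
  have h5 : L ^ (free A m J τ).card = ∏ i, if i ∈ free A m J τ then L else 1 := by
    rw [← Finset.prod_const, ← Finset.prod_filter]
    refine Finset.prod_congr ?_ fun _ _ => rfl
    ext i
    simp
  have h6 : Polynomial.eval₂ (Int.castRingHom R) Y (wt A m J τ N u) =
      ∏ i, if i ∈ free A m J τ then (if u i ≤ N then (1 - Y) * Y ^ u i else Y ^ (N + 1))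
        else Y ^ u i := by
    rw [wt, Polynomial.eval₂_finsetProd]
    refine Finset.prod_congr rfl fun i _ => ?_
    split_ifs <;> simp [Polynomial.eval₂_mul, Polynomial.eval₂_sub, Polynomial.eval₂_pow]
  rw [h1, h2, h3, h4, h5, h6, ← Finset.prod_mul_distrib, ← Finset.prod_mul_distrib,
    ← Finset.prod_mul_distrib, ← Finset.prod_mul_distrib]
  exact Finset.prod_congr rfl fun i _ => weight_coord L Y hLY N (u i) (hu i) _

theorem ev_cp (A : Fin n → ℕ) (m : Fin r → Fin n → ℕ) (e : ℕ) (J : Finset (Fin n))
    (τ : Finset (Fin r)) (N M : ℕ) (Y : R) :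
    Polynomial.eval₂ (Int.castRingHom R) Y (cp A m e J τ N M) =
      ∑ u ∈ ((Fintype.piFinset fun _ : Fin n => Finset.range (N + 2)).filter (Adm J)).filter
          (fun u => amin m u = τ),
        if ford A m e u = M then Polynomial.eval₂ (Int.castRingHom R) Y (wt A m J τ N u) else 0 := by
  rw [cp, Polynomial.eval₂_finsetSum, ← Finset.sum_filter]
  refine Finset.sum_congr ?_ fun _ _ => rfl
  ext u
  simp only [Finset.mem_filter]
  tauto

end Weight

/-- (SUM) -/
theorem Sum.main (h1 : S_Jet) (h2 : S_Shift) (h3 : S_Cond) (h4 : S_StB) (h5 : S_StC) :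
    S_Sum := by
  classical
  intro K _ _ R _ M n r A m c e x J hJ hm hc hr he Y hY N hN
  set U := (Fintype.piFinset fun _ : Fin n => Finset.range (N + 2)).filter (Adm J) with hU
  have key : ∀ u ∈ U, M.χ (Fin n × Fin (2 * N + 1 + 1)) (strat (sp A m c e) x N u) *
      Y ^ (n * (2 * N + 1)) =
      M.L ^ (free A m J (amin m u)).card * (M.χ _ (B0 A m c e x J (amin m u)) *
        (if ford A m e u = N then
          Polynomial.eval₂ (Int.castRingHom R) Y (wt A m J (amin m u) N u) else 0) +
        ∑ l ∈ Finset.Icc 1 N, if e * l ≤ N then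
          M.χ _ (B1 A m c e x J (amin m u)) * Y ^ l *
            (if ford A m e u = N - e * l then
              Polynomial.eval₂ (Int.castRingHom R) Y (wt A m J (amin m u) N u) else 0)
          else 0) := by
    intro u hu
    rw [hU, Finset.mem_filter, Fintype.mem_piFinset] at hu
    obtain ⟨hu1, hA⟩ := hu
    have hu' : ∀ i, u i ≤ N + 1 := by
      intro i
      have := Finset.mem_range.1 (hu1 i)
      omega
    rw [h2 M (sp A m c e) x J hJ N hN u hA hu']
    have hset : (Y0 x N u ∩ {y | ∀ j ≤ N, PowerSeries.coeff j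
        (aeval (fun i => PowerSeries.X ^ u i * arc y i) (sp A m c e)) =
          if j = N then 1 else 0}) =
        Y0 x N u ∩ {y | ∃ l, ford A m e u + e * l = N ∧
          (∀ k < l, PowerSeries.coeff k (gser m (cb c) (del m u) (arc y)) = 0) ∧
          (∏ i, y (i, 0) ^ A i) *
            (PowerSeries.coeff l (gser m (cb c) (del m u) (arc y))) ^ e = 1} := by
      ext y
      simp only [Set.mem_inter_iff, Set.mem_ofPred_eq]
      constructor
      · rintro ⟨ha, hb⟩
        exact ⟨ha, (h3 A m c e x J hJ hr he N hN u hA hu' y ha).1 hb⟩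
      · rintro ⟨ha, hb⟩
        exact ⟨ha, (h3 A m c e x J hJ hr he N hN u hA hu' y ha).2 hb⟩
    rw [hset]
    have hw := weight_eq A m J (amin m u) N u hu' M.L Y hY
    by_cases hex : ∃ l, ford A m e u + e * l = N
    · obtain ⟨l, hl⟩ := hex
      have huniq : ∀ l', ford A m e u + e * l' = N → l' = l := by
        intro l' hl'
        have : e * l' = e * l := by omega
        exact Nat.eq_of_mul_eq_mul_left he this
      have hset2 : (Y0 x N u ∩ {y | ∃ l, ford A m e u + e * l = N ∧
          (∀ k < l, PowerSeries.coeff k (gser m (cb c) (del m u) (arc y)) = 0) ∧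
          (∏ i, y (i, 0) ^ A i) *
            (PowerSeries.coeff l (gser m (cb c) (del m u) (arc y))) ^ e = 1}) =
          Y0 x N u ∩ {y | (∀ k < l, PowerSeries.coeff k (gser m (cb c) (del m u) (arc y)) = 0) ∧
          (∏ i, y (i, 0) ^ A i) *
            (PowerSeries.coeff l (gser m (cb c) (del m u) (arc y))) ^ e = 1} := by
        ext y
        simp only [Set.mem_inter_iff, Set.mem_ofPred_eq]
        constructor
        · rintro ⟨ha, l', hl', hb⟩
          rw [huniq l' hl'] at hb
          exact ⟨ha, hb⟩
        · rintro ⟨ha, hb⟩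
          exact ⟨ha, l, hl, hb⟩
      rw [hset2]
      rcases Nat.eq_zero_or_pos l with rfl | hlpos
      · have hN' : ford A m e u = N := by omega
        have h6 := h4 M A m c e x J hJ hm hc hr he N hN u hA hu' hN'
        simp only [Nat.not_lt_zero, false_implies, implies_true, true_and]
        rw [h6, if_pos hN']
        have hz : (∑ l ∈ Finset.Icc 1 N, if e * l ≤ N then
          M.χ _ (B1 A m c e x J (amin m u)) * Y ^ l *
            (if ford A m e u = N - e * l then
              Polynomial.eval₂ (Int.castRingHom R) Y (wt A m J (amin m u) N u) else 0)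
          else 0) = 0 := by
          refine Finset.sum_eq_zero fun l hl1 => ?_
          rw [Finset.mem_Icc] at hl1
          have hel : 0 < e * l := Nat.mul_pos he (by omega)
          split_ifs with h7 h8
          · exfalso
            omega
          · rw [mul_zero]
          · rfl
        rw [hz, add_zero]
        linear_combination (M.χ _ (B0 A m c e x J (amin m u))) * hw
      · have h6 := h5 M A m c e x J hJ hm hc hr he N hN u hA hu' l hlpos hl
        have hel : 0 < e * l := Nat.mul_pos he hlpos
        have hlN : l ≤ N := le_trans (Nat.le_mul_of_pos_left l he) (by omega)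
        rw [if_neg (by omega), mul_zero, zero_add]
        have hz : (∑ l ∈ Finset.Icc 1 N, if e * l ≤ N then
          M.χ _ (B1 A m c e x J (amin m u)) * Y ^ l *
            (if ford A m e u = N - e * l then
              Polynomial.eval₂ (Int.castRingHom R) Y (wt A m J (amin m u) N u) else 0)
          else 0) = M.χ _ (B1 A m c e x J (amin m u)) * Y ^ l *
              Polynomial.eval₂ (Int.castRingHom R) Y (wt A m J (amin m u) N u) := by
          rw [Finset.sum_eq_single l]
          · rw [if_pos (by omega), if_pos (by omega)]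
          · intro l' _ hne
            split_ifs with h7 h8
            · exact absurd (huniq l' (by omega)) hne
            · rw [mul_zero]
            · rfl
          · intro h9
            exact absurd (Finset.mem_Icc.2 ⟨hlpos, hlN⟩) h9
        rw [hz]
        have h10 : M.L ^ l * Y ^ l = 1 := by rw [← mul_pow, hY, one_pow]
        have h11 : M.χ _ (Y0 x N u ∩ {y |
            (∀ k < l, PowerSeries.coeff k (gser m (cb c) (del m u) (arc y)) = 0) ∧
            (∏ i, y (i, 0) ^ A i) *
              (PowerSeries.coeff l (gser m (cb c) (del m u) (arc y))) ^ e = 1}) =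
            (M.χ _ (B1 A m c e x J (amin m u)) *
            (M.L - 1) ^ ((free A m J (amin m u)).filter fun i => u i ≤ N).card *
            M.L ^ ((free A m J (amin m u)).filter fun i => ¬ u i ≤ N).card *
            M.L ^ (∑ i, (2 * N + 1 - u i))) * Y ^ l := by
          rw [← h6, mul_assoc, h10, mul_one]
        rw [h11]
        linear_combination (M.χ _ (B1 A m c e x J (amin m u)) * Y ^ l) * hw
    · have hset2 : (Y0 x N u ∩ {y | ∃ l, ford A m e u + e * l = N ∧
          (∀ k < l, PowerSeries.coeff k (gser m (cb c) (del m u) (arc y)) = 0) ∧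
          (∏ i, y (i, 0) ^ A i) *
            (PowerSeries.coeff l (gser m (cb c) (del m u) (arc y))) ^ e = 1}) = ∅ := by
        ext y
        simp only [Set.mem_inter_iff, Set.mem_ofPred_eq, Set.mem_empty_iff_false, iff_false]
        rintro ⟨-, l, hl, -⟩
        exact hex ⟨l, hl⟩
      rw [hset2, chi_empty, zero_mul, if_neg (fun h => hex ⟨0, by simpa using h⟩), mul_zero,
        zero_add]
      have hz : (∑ l ∈ Finset.Icc 1 N, if e * l ≤ N then
        M.χ _ (B1 A m c e x J (amin m u)) * Y ^ l *
          (if ford A m e u = N - e * l then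
            Polynomial.eval₂ (Int.castRingHom R) Y (wt A m J (amin m u) N u) else 0)
        else 0) = 0 := by
        refine Finset.sum_eq_zero fun l _ => ?_
        split_ifs with h7 h8
        · exact absurd ⟨l, by omega⟩ hex
        · rw [mul_zero]
        · rfl
      rw [hz, mul_zero]
  have hJet := h1 M (sp A m c e) x J hJ N hN
  have e1 : M.χ _ (Jet (sp A m c e) x N) * Y ^ (n * N) =
      (M.χ (Fin n × Fin (N + 1)) (Jet (sp A m c e) x N) * M.L ^ (n * (N + 1))) *
        Y ^ (n * (2 * N + 1)) := by
    have h12 : M.L ^ (n * (N + 1)) * Y ^ (n * (2 * N + 1)) = Y ^ (n * N) := by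
      have h13 : n * (2 * N + 1) = n * (N + 1) + n * N := by ring
      rw [h13, pow_add, ← mul_assoc, ← mul_pow, hY, one_pow, one_mul]
    rw [mul_assoc, h12]
  rw [e1, hJet, Finset.sum_mul, Finset.sum_congr rfl key]
  rw [← Finset.sum_fiberwise U (fun u => amin m u)]
  refine Finset.sum_congr rfl fun τ _ => ?_
  have e2 : ∀ u ∈ U.filter (fun u => amin m u = τ), (M.L ^ (free A m J (amin m u)).card *
      (M.χ _ (B0 A m c e x J (amin m u)) *
        (if ford A m e u = N then
          Polynomial.eval₂ (Int.castRingHom R) Y (wt A m J (amin m u) N u) else 0) +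
        ∑ l ∈ Finset.Icc 1 N, if e * l ≤ N then
          M.χ _ (B1 A m c e x J (amin m u)) * Y ^ l *
            (if ford A m e u = N - e * l then
              Polynomial.eval₂ (Int.castRingHom R) Y (wt A m J (amin m u) N u) else 0)
          else 0)) = M.L ^ (free A m J τ).card *
      (M.χ _ (B0 A m c e x J τ) *
        (if ford A m e u = N then
          Polynomial.eval₂ (Int.castRingHom R) Y (wt A m J τ N u) else 0) +
        ∑ l ∈ Finset.Icc 1 N, if e * l ≤ N then
          M.χ _ (B1 A m c e x J τ) * Y ^ l *
            (if ford A m e u = N - e * l then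
              Polynomial.eval₂ (Int.castRingHom R) Y (wt A m J τ N u) else 0)
          else 0) := by
    intro u hu
    rw [(Finset.mem_filter.1 hu).2]
  rw [Finset.sum_congr rfl e2, ← Finset.mul_sum, Finset.sum_add_distrib, ← Finset.mul_sum,
    Finset.sum_comm, ev_cp]
  congr 2
  refine Finset.sum_congr rfl fun l _ => ?_
  split_ifs with h7
  · rw [← Finset.mul_sum, ev_cp]
  · exact Finset.sum_const_zero

end Pool.Agent.W375.MT
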