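import Pool.Agent.W375.MT.Jet
import Pool.Agent.W346.MTCond
import Pool.Agent.W428.MOT.EStm

/-!
# ME-EJET, ESHIFT, ECOND
-/

set_option autoImplicit false

namespace Pool.Agent.W375.MT

open MvPolynomial
open Pool.Agent.W428.MOT
open Pool.Agent.W426.SM (AffInd gord ford IsRay face)

variable {k : Type} [Field k] {n : ℕ}

theorem Valid.sub {f : MvPolynomial (Fin n) k} {ι : Type} {S T : Set (Pt k ι)} {ρ : ι → ℤ}
    {M : ℕ} {β : Fin n → Option ι} (h : Valid f S ρ M β) (hTS : T ⊆ S) (hT : Constr T)
    (hst : ∀ l : AlgebraicClosure k, l ^ M = 1 → ∀ z ∈ T, dact ρ l z ∈ T) : Valid f T ρ M β where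
  constr := hT
  pos := h.pos
  stable := hst
  base := fun z hz => h.base z (hTS hz)
  inv := h.inv

theorem echi_empty {f : MvPolynomial (Fin n) k} {R : Type} [CommRing R] (M : EMeas f R)
    {ι : Type} [Fintype ι] {S : Set (Pt k ι)} {ρ : ι → ℤ} {d : ℕ} {β : Fin n → Option ι}
    (h : Valid f S ρ d β) : M.χ ι (∅ : Set (Pt k ι)) ρ d β = 0 := by
  have h0 : Valid f (∅ : Set (Pt k ι)) ρ d β :=
    Valid.sub h (Set.empty_subset _) Constr.empty (fun l _ z hz => absurd hz (Set.notMem_empty z))
  have := M.add ∅ ∅ ρ d β h0 h0 (Set.disjoint_empty _)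
  rw [Set.union_self] at this
  simpa using this

theorem echi_biUnion {f : MvPolynomial (Fin n) k} {R : Type} [CommRing R] (M : EMeas f R)
    {ι : Type} [Fintype ι] {S : Set (Pt k ι)} {ρ : ι → ℤ} {d : ℕ} {β : Fin n → Option ι}
    (h : Valid f S ρ d β) {α : Type}
    (s : Finset α) (T : α → Set (Pt k ι)) (hT : ∀ a ∈ s, Valid f (T a) ρ d β)
    (hd : ∀ a ∈ s, ∀ b ∈ s, a ≠ b → Disjoint (T a) (T b)) :
    M.χ ι (⋃ a ∈ s, T a) ρ d β = ∑ a ∈ s, M.χ ι (T a) ρ d β ∧ Valid f (⋃ a ∈ s, T a) ρ d β := by
  classical
  induction s using Finset.induction_on with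
  | empty =>
    refine ⟨by simpa using echi_empty M h, ?_⟩
    refine Valid.sub h ?_ ?_ ?_
    · simp
    · simpa using Constr.empty (K := k) (ι := ι)
    · intro l _ z hz
      simp at hz
  | insert a s ha ih =>
    obtain ⟨ih1, ih2⟩ := ih (fun b hb => hT b (Finset.mem_insert_of_mem hb))
      (fun b hb c hc => hd b (Finset.mem_insert_of_mem hb) c (Finset.mem_insert_of_mem hc))
    have hTa := hT a (Finset.mem_insert_self _ _)
    have hdis : Disjoint (T a) (⋃ b ∈ s, T b) := by
      rw [Set.disjoint_iUnion₂_right]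
      intro b hb
      refine hd a (Finset.mem_insert_self _ _) b (Finset.mem_insert_of_mem hb) ?_
      rintro rfl
      exact ha hb
    rw [Finset.set_biUnion_insert, Finset.sum_insert ha, M.add _ _ ρ d β hTa ih2 hdis, ih1]
    refine ⟨rfl, ?_⟩
    exact {
      constr := hTa.constr.union ih2.constr
      pos := hTa.pos
      stable := fun l hl z hz => by
        rcases hz with hz | hz
        · exact Or.inl (hTa.stable l hl z hz)
        · exact Or.inr (ih2.stable l hl z hz)
      base := fun z hz => by
        rcases hz with hz | hz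
        · exact hTa.base z hz
        · exact ih2.base z hz
      inv := hTa.inv }

theorem coeff_zero_aeval (γ : Fin n → PowerSeries (AlgebraicClosure k))
    (g : MvPolynomial (Fin n) k) :
    PowerSeries.coeff 0 (aeval γ g) = aeval (fun i => PowerSeries.constantCoeff (γ i)) g := by
  induction g using MvPolynomial.induction_on with
  | C a =>
    rw [algHom_C, algHom_C, PowerSeries.algebraMap_apply, PowerSeries.coeff_zero_C]
  | add p q hp hq => rw [map_add, map_add, map_add, hp, hq]
  | mul_X p i hp =>
    have e1 : aeval γ (p * X i) = aeval γ p * γ i := by rw [map_mul, aeval_X]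
    have e2 : aeval (fun i => PowerSeries.constantCoeff (γ i)) (p * X i) =
        aeval (fun i => PowerSeries.constantCoeff (γ i)) p * PowerSeries.constantCoeff (γ i) := by
      rw [map_mul, aeval_X]
    rw [e1, e2, ← hp]
    simp only [PowerSeries.coeff_zero_eq_constantCoeff_apply, map_mul]

/-- the jets of level `2 N + 1` -/
def JetE' (f : MvPolynomial (Fin n) k) (N : ℕ) : Set (Pt k (Fin n × Fin (2 * N + 1 + 1))) :=
  {z | ∀ j ≤ N, PowerSeries.coeff j (aeval (arc z) f) = if j = N then 1 else 0}

theorem arc_dact' {N : ℕ} (l : AlgebraicClosure k) (z : Pt k (Fin n × Fin (N + 1))) (i : Fin n) :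
    arc (dact (jw n N) l z) i = PowerSeries.rescale l (arc z i) := arc_dact l z i

theorem constantCoeff_arc {N : ℕ} (z : Pt k (Fin n × Fin (N + 1))) (i : Fin n) :
    PowerSeries.constantCoeff (arc z i) = z (i, 0) := by
  rw [← PowerSeries.coeff_zero_eq_constantCoeff_apply, coeff_arc _ _ _ (by omega)]
  rfl

theorem jetValid' (f : MvPolynomial (Fin n) k) (N : ℕ) (hN : 1 ≤ N) :
    Valid f (JetE' f N) (jw n (2 * N + 1)) N (jb n (2 * N + 1)) where
  constr := Constr.allLe N fun j _ => by
    refine Constr.eq (IsPA.aeval (fun i z => arc z i) (fun i => isPA_arc i) f j) ?_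
    split_ifs
    · exact IsPF.one
    · exact IsPF.zero
  pos := hN
  stable := fun l hl z hz j hj => by
    have h1 : arc (dact (jw n (2 * N + 1)) l z) =
        fun i => PowerSeries.rescale l (arc z i) := funext fun i => arc_dact' l z i
    rw [h1, aeval_rescale, PowerSeries.coeff_rescale, hz j hj]
    split_ifs with h
    · rw [h, hl, one_mul]
    · rw [mul_zero]
  base := fun z hz => by
    have h1 := hz 0 (Nat.zero_le N)
    rw [if_neg (by omega), coeff_zero_aeval] at h1
    rw [← h1]
    congr 2
  inv := fun i j h => by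
    rw [jb, Option.some.injEq] at h
    rw [← h]
    rfl

theorem ne_zero_of_pow {N : ℕ} (hN : 1 ≤ N) {l : AlgebraicClosure k} (hl : l ^ N = 1) :
    l ≠ 0 := by
  rintro rfl
  rw [zero_pow (by omega)] at hl
  exact zero_ne_one hl

theorem stratE_valid (f : MvPolynomial (Fin n) k) (N : ℕ) (hN : 1 ≤ N) (u : Fin n → ℕ) :
    Valid f (stratE f N u) (jw n (2 * N + 1)) N (jb n (2 * N + 1)) := by
  refine Valid.sub (jetValid' f N hN) (fun z hz => hz.2) ?_ ?_
  · unfold stratE
    refine Constr.and (Constr.all fun i => Constr.and (Constr.allLt _ fun j _ => ?_)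
      (Constr.imp' fun _ => ?_)) (jetValid' f N hN).constr
    · exact Constr.eqz (isPA_arc i j)
    · exact (Constr.eqz (isPA_arc i (u i))).not
  · intro l hl z hz
    have hl0 := ne_zero_of_pow hN hl
    refine ⟨fun i => ⟨fun j hj => ?_, fun hi => ?_⟩, (jetValid' f N hN).stable l hl z hz.2⟩
    · rw [arc_dact', PowerSeries.coeff_rescale, (hz.1 i).1 j hj, mul_zero]
    · rw [arc_dact', PowerSeries.coeff_rescale]
      exact mul_ne_zero (pow_ne_zero _ hl0) ((hz.1 i).2 hi)

theorem jetE'_union (f : MvPolynomial (Fin n) k) (N : ℕ) :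
    JetE' f N = ⋃ u ∈ (Fintype.piFinset fun _ : Fin n => Finset.range (N + 2)),
      stratE f N u := by
  classical
  ext z
  simp only [Set.mem_iUnion, Fintype.mem_piFinset, Finset.mem_range, exists_prop]
  constructor
  · intro hz
    have hex : ∀ i, ∃ j, j = N + 1 ∨ PowerSeries.coeff j (arc z i) ≠ 0 := fun i =>
      ⟨N + 1, Or.inl rfl⟩
    have hle : ∀ i, Nat.find (hex i) ≤ N + 1 := fun i => Nat.find_min' (hex i) (Or.inl rfl)
    refine ⟨fun i => Nat.find (hex i), fun i => Nat.lt_succ_of_le (hle i), ?_, hz⟩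
    intro i
    constructor
    · intro j hj
      have := Nat.find_min (hex i) hj
      push Not at this
      exact this.2
    · intro hi
      rcases Nat.find_spec (hex i) with h | h
      · have hi' : Nat.find (hex i) ≤ N := hi
        omega
      · exact h
  · rintro ⟨u, -, -, h3⟩
    exact h3

theorem jetE_eq {f : MvPolynomial (Fin n) k} {R : Type} [CommRing R] (M : EMeas f R) (N : ℕ)
    (hN : 1 ≤ N) :
    M.χ _ (JetE' f N ∩ {z | ∀ p ∈ F1 n N, z p = 0})
        (fun p => if p ∈ F1 n N then 0 else jw n (2 * N + 1) p) N (jb n (2 * N + 1)) =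
      M.χ _ (JetE f N) (jw n N) N (jb n N) := by
  have hw : ∀ (l : AlgebraicClosure k) (z : Pt k (Fin n × Fin (2 * N + 1 + 1))),
      (∀ p ∈ F1 n N, z p = 0) →
      dact (fun p => if p ∈ F1 n N then 0 else jw n (2 * N + 1) p) l z =
        dact (jw n (2 * N + 1)) l z := by
    intro l z hz
    funext p
    simp only [dact]
    by_cases hp : p ∈ F1 n N
    · rw [hz p hp, mul_zero, mul_zero]
    · rw [if_neg hp]
  have hV : Valid f (JetE' f N ∩ {z | ∀ p ∈ F1 n N, z p = 0})
      (fun p => if p ∈ F1 n N then 0 else jw n (2 * N + 1) p) N (jb n (2 * N + 1)) := {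
    constr := (jetValid' f N hN).constr.inter (Constr.ballFinset _ fun p _ =>
      Constr.eqz (IsPF.coord _))
    pos := hN
    stable := fun l hl z hz => by
      rw [hw l z hz.2]
      refine ⟨(jetValid' f N hN).stable l hl z hz.1, fun p hp => ?_⟩
      simp only [dact]
      rw [hz.2 p hp, mul_zero]
    base := fun z hz => (jetValid' f N hN).base z hz.1
    inv := fun i j h => by
      have h1 := (jetValid' f N hN).inv i j h
      simp only [h1, ite_self] }
  refine M.iso _ _ _ _ _ _ _ _ hV (jetValid f N hN) (rs N) (ex N)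
    (regularOn_poly (fun p => IsPF.coord _) _) (regularOn_poly (fun p => ?_) _) ?_ ?_ ?_ ?_ ?_ ?_
  · unfold ex
    by_cases h : (p.2 : ℕ) < N + 1
    · simp only [dif_pos h]
      exact IsPF.coord _
    · simp only [dif_neg h]
      exact IsPF.zero
  · rintro z ⟨h2, h3⟩ j hj
    rw [coeff_aeval_congr f N (arc (rs N z)) (arc z) ?_ j hj]
    · exact h2 j hj
    · intro i k hk
      rw [coeff_arc _ _ _ (by omega), coeff_arc _ _ _ (by omega)]
      rfl
  · rintro z h2
    refine ⟨fun j hj => ?_, ?_⟩
    · rw [coeff_aeval_congr f N (arc (ex N z)) (arc z) ?_ j hj]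
      · exact h2 j hj
      · intro i k hk
        rw [coeff_arc _ _ _ (by omega), coeff_arc _ _ _ (by omega)]
        simp only [ex]
        rw [dif_pos (by omega)]
    · intro p hp
      simp only [F1, Finset.mem_filter, Finset.mem_univ, true_and] at hp
      simp only [ex]
      rw [dif_neg (by omega)]
  · rintro z ⟨-, h3⟩
    funext p
    simp only [ex, rs]
    split_ifs with h
    · rfl
    · exact (h3 p (by simp only [F1, Finset.mem_filter, Finset.mem_univ, true_and]; omega)).symm
  · rintro z -
    funext p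
    simp only [ex, rs]
    rw [dif_pos p.2.2]
  · rintro z -
    rfl
  · rintro l - z ⟨-, h3⟩
    rw [hw _ z h3]
    rfl

/-- (EJET) -/
theorem EJet.main (h1 : S_EFree) : S_EJet := by
  classical
  intro k _ n f R _ M N hN
  have e1 := h1 M (JetE' f N) (jw n (2 * N + 1)) N (jb n (2 * N + 1)) ∅ (F1 n N) (fun _ => 0)
    (Finset.disjoint_empty_left _) (jetValid' f N hN)
    (fun i j hj => by
      rw [jb, Option.some.injEq] at hj
      rw [← hj]
      simp [F1])
    (fun z w h hz j hj => by
      rw [coeff_aeval_congr f N (arc w) (arc z) ?_ j hj]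
      · exact hz j hj
      · intro i k hk
        rw [coeff_arc _ _ _ (by omega), coeff_arc _ _ _ (by omega)]
        exact h _ (by simp) (by
          simp only [F1, Finset.mem_filter, Finset.mem_univ, true_and]; omega))
  simp only [Finset.notMem_empty, false_implies, implies_true, Set.ofPred_true, Set.inter_univ,
    Finset.empty_union, map_zero, Finset.card_empty, pow_zero, mul_one] at e1
  rw [card_F1, jetE_eq M N hN] at e1
  rw [← e1, jetE'_union f N]
  refine (echi_biUnion M (jetValid' f N hN) _ _ (fun u _ => stratE_valid f N hN u) ?_).1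
  intro u hu v hv huv
  rw [Set.disjoint_left]
  rintro z ⟨h2, -⟩ ⟨h3, -⟩
  apply huv
  simp only [Fintype.mem_piFinset, Finset.mem_range] at hu hv
  funext i
  rcases lt_trichotomy (u i) (v i) with h | h | h
  · exact absurd ((h3 i).1 _ h) ((h2 i).2 (by have := hv i; omega))
  · exact h
  · exact absurd ((h2 i).1 _ h) ((h3 i).2 (by have := hu i; omega))

theorem arc_yw {N : ℕ} (u : Fin n → ℕ) (l : AlgebraicClosure k)
    (y : Pt k (Fin n × Fin (N + 1))) (i : Fin n) :
    PowerSeries.X ^ u i * arc (dact (yw N u) l y) i =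
      PowerSeries.rescale l (PowerSeries.X ^ u i * arc y i) := by
  ext j
  rw [PowerSeries.coeff_rescale, PowerSeries.coeff_X_pow_mul', PowerSeries.coeff_X_pow_mul']
  split_ifs with h1
  · by_cases h2 : j - u i < N + 1
    · rw [coeff_arc _ _ _ h2, coeff_arc _ _ _ h2]
      simp only [dact, yw]
      rw [← zpow_natCast l j]
      congr 2
      omega
    · rw [coeff_arc' _ _ _ h2, coeff_arc' _ _ _ h2, mul_zero]
  · rw [mul_zero]

theorem constr_Y0E (N : ℕ) (u : Fin n → ℕ) : Constr (Y0E k N u) := by
  unfold Y0E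
  refine Constr.and (Constr.all fun i => Constr.all fun j => Constr.imp' fun _ =>
      Constr.eqz (IsPF.coord _))
    (Constr.all fun i => Constr.imp' fun _ => (Constr.eqz (IsPF.coord _)).not)

theorem Y0E_stable {N : ℕ} (u : Fin n → ℕ) {l : AlgebraicClosure k} (hl0 : l ≠ 0)
    (ρ : Fin n × Fin (2 * N + 1 + 1) → ℤ)
    (y : Pt k (Fin n × Fin (2 * N + 1 + 1))) (hy : y ∈ Y0E k N u) :
    dact ρ l y ∈ Y0E k N u := by
  refine ⟨fun i j hj => ?_, fun i hi => ?_⟩
  · simp only [dact]
    rw [hy.1 i j hj, mul_zero]
  · simp only [dact]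
    exact mul_ne_zero (zpow_ne_zero _ hl0) (hy.2 i hi)

theorem yE_valid (f : MvPolynomial (Fin n) k) (N : ℕ) (hN : 1 ≤ N) (u : Fin n → ℕ) :
    Valid f (Y0E k N u ∩ {y | ∀ j ≤ N, PowerSeries.coeff j
        (aeval (fun i => PowerSeries.X ^ u i * arc y i) f) = if j = N then 1 else 0})
      (yw (2 * N + 1) u) N (yb (2 * N + 1) u) where
  constr := (constr_Y0E N u).inter (constr_shiftCond f N u)
  pos := hN
  stable := fun l hl y hy => by
    refine ⟨Y0E_stable u (ne_zero_of_pow hN hl) _ y hy.1, fun j hj => ?_⟩
    have h1 : (fun i => PowerSeries.X ^ u i * arc (dact (yw (2 * N + 1) u) l y) i) =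
        fun i => PowerSeries.rescale l (PowerSeries.X ^ u i * arc y i) :=
      funext fun i => arc_yw u l y i
    rw [h1, aeval_rescale, PowerSeries.coeff_rescale, hy.2 j hj]
    split_ifs with h
    · rw [h, hl, one_mul]
    · rw [mul_zero]
  base := fun y hy => by
    have h1 := hy.2 0 (Nat.zero_le N)
    rw [if_neg (by omega), coeff_zero_aeval] at h1
    rw [← h1]
    congr 2
    funext i
    rw [map_mul, map_pow, PowerSeries.constantCoeff_X, constantCoeff_arc]
    simp only [cbase, yb]
    by_cases hi : u i = 0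
    · simp [hi]
    · simp [hi]
  inv := fun i j h => by
    simp only [yb] at h
    split_ifs at h with hi
    rw [Option.some.injEq] at h
    rw [← h]
    simp [yw, hi]

/-- (ESHIFT) -/
theorem EShift.main : S_EShift := by
  intro k _ n f R _ M N hN u hu
  refine M.iso _ _ _ _ _ _ _ _ (stratE_valid f N hN u) (yE_valid f N hN u)
    (sh u) (sh' u) (regularOn_poly (fun p => isPF_sh u p) _)
    (regularOn_poly (fun p => isPF_sh' u p) _) ?_ ?_ ?_ ?_ ?_ ?_
  · rintro z ⟨h2, h3⟩
    refine ⟨⟨?_, ?_⟩, ?_⟩
    · intro i j hj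
      simp only [sh]
      rw [dif_neg (by have := hu i; omega)]
    · intro i hi
      have := (h2 i).2 hi
      rw [coeff_arc _ _ _ (by omega)] at this
      simp only [sh]
      rw [dif_pos (by simp only [Fin.val_zero]; omega)]
      simpa using this
    · intro j hj
      have h4 : (fun i => PowerSeries.X ^ u i * arc (sh u z) i) = arc z := by
        funext i
        exact (arc_sh u z i (h2 i).1).symm
      rw [h4]
      exact h3 j hj
  · rintro y ⟨⟨h1, h2⟩, h4⟩
    have h5 : ∀ i, arc (sh' u y) i = PowerSeries.X ^ u i * arc y i := fun i =>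
      arc_sh' u y i (h1 i) (by have := hu i; omega)
    refine ⟨?_, ?_⟩
    · intro i
      rw [h5 i]
      constructor
      · intro j hj
        rw [PowerSeries.coeff_X_pow_mul', if_neg (by omega)]
      · intro hi
        rw [PowerSeries.coeff_X_pow_mul', if_pos le_rfl, Nat.sub_self,
          coeff_arc _ _ _ (by omega)]
        exact h2 i hi
    · intro j hj
      have h6 : arc (sh' u y) = fun i => PowerSeries.X ^ u i * arc y i := funext h5
      rw [h6]
      exact h4 j hj
  · rintro z ⟨h2, h3⟩
    funext p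
    obtain ⟨i, j⟩ := p
    simp only [sh', sh]
    split_ifs with h6 h7
    · congr 2
      apply Fin.ext
      simp only
      omega
    · exfalso
      have := j.2
      omega
    · have := (h2 i).1 (j : ℕ) (by omega)
      rw [coeff_arc _ _ _ j.2] at this
      exact this.symm
  · rintro y ⟨⟨h1, h2⟩, h4⟩
    funext p
    obtain ⟨i, j⟩ := p
    simp only [sh', sh]
    split_ifs with h6 h7
    · congr 2
      apply Fin.ext
      simp only
      omega
    · omega
    · rw [h1 i j (by have := hu i; omega)]
  · rintro z ⟨h2, -⟩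
    funext i
    simp only [cbase, yb, jb]
    by_cases hi : u i = 0
    · rw [if_pos hi]
      simp only [Option.elim, sh]
      rw [dif_pos (by simp only [Fin.val_zero]; omega)]
      congr 2
      apply Fin.ext
      simp [hi]
    · rw [if_neg hi]
      simp only [Option.elim]
      have := (h2 i).1 0 (by omega)
      rw [coeff_arc _ _ _ (by omega)] at this
      exact this.symm
  · rintro l - z -
    funext p
    obtain ⟨i, j⟩ := p
    simp only [sh, dact, yw, jw]
    split_ifs with h
    · push_cast
      rfl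
    · rw [mul_zero]

/-- (ECOND) -/
theorem ECond.main (h : S_Ord) : S_ECond := by
  intro K _ _ n r A m c e hr he N hN u huN y hy
  rw [Pool.Agent.W346.MTCond.aeval_sp]
  set F := ford A m e u with hF
  set G := gser m (cb c) (del m u) (arc y) with hG
  set P : PowerSeries (AlgebraicClosure K) := ∏ i, arc y i ^ A i with hP
  have hPc : PowerSeries.constantCoeff P = ∏ i, y (i, 0) ^ A i := by
    rw [hP, map_prod]
    simp only [map_pow, constantCoeff_arc]
  by_cases hFN : F ≤ N
  · have hne : PowerSeries.constantCoeff P ≠ 0 := by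
      rw [hPc]
      refine Finset.prod_ne_zero_iff.2 fun i _ => ?_
      rcases Nat.eq_zero_or_pos (A i) with h0 | h0
      · rw [h0, pow_zero]
        exact one_ne_zero
      · refine pow_ne_zero _ (hy.2 i ?_)
        have h1 : u i ≤ u i * A i := Nat.le_mul_of_pos_right _ h0
        have h2 : u i * A i ≤ ∑ i, u i * A i :=
          Finset.single_le_sum (f := fun i => u i * A i) (fun _ _ => Nat.zero_le _)
            (Finset.mem_univ i)
        have h3 : ∑ i, u i * A i ≤ F := by
          rw [hF]
          unfold ford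
          exact Nat.le_add_right _ _
        omega
    have key := h P G e (N - F) he hne
    have h4 : (∀ j ≤ N, PowerSeries.coeff j (PowerSeries.X ^ F * (P * G ^ e)) =
        if j = N then 1 else 0) ↔
        ∀ k ≤ N - F, PowerSeries.coeff k (P * G ^ e) = if k = N - F then 1 else 0 := by
      constructor
      · intro h5 k hk
        have h6 := h5 (k + F) (by omega)
        rw [PowerSeries.coeff_X_pow_mul', if_pos (by omega), Nat.add_sub_cancel] at h6
        rw [h6]
        exact if_congr (by omega) rfl rfl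
      · intro h5 j hj
        rw [PowerSeries.coeff_X_pow_mul']
        split_ifs with h6 h7 h7
        · rw [h5 (j - F) (by omega), if_pos (by omega)]
        · rw [h5 (j - F) (by omega), if_neg (by omega)]
        · omega
        · rfl
    rw [h4, key, hPc]
    constructor
    · rintro ⟨l, h5, h6, h7⟩
      exact ⟨l, by omega, h6, h7⟩
    · rintro ⟨l, h5, h6, h7⟩
      exact ⟨l, by omega, h6, h7⟩
  · constructor
    · intro h5
      have h6 := h5 N le_rfl
      rw [PowerSeries.coeff_X_pow_mul', if_neg hFN, if_pos rfl] at h6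
      exact absurd h6 zero_ne_one
    · rintro ⟨l, h5, -⟩
      omega

end Pool.Agent.W375.MT
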