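import Pool.Agent.W375.MT.Shift

/-!
# MT-JET: partition of the jets by the orders of the coordinates
-/

set_option autoImplicit false

namespace Pool.Agent.W375.MT

open MvPolynomial
open Pool.Agent.W428.MOT

variable {K : Type} [Field K]

/-- finite additivity -/
theorem chi_empty {R : Type} [CommRing R] (M : Meas K R) {ι : Type} [Fintype ι] :
    M.χ ι (∅ : Set (Pt K ι)) = 0 := by
  have := M.add (∅ : Set (Pt K ι)) ∅ Constr.empty Constr.empty (Set.disjoint_empty _)
  rw [Set.union_self] at this
  simpa using this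

theorem constr_biUnion {ι α : Type} (s : Finset α) (T : α → Set (Pt K ι))
    (hT : ∀ a ∈ s, Constr (T a)) : Constr (⋃ a ∈ s, T a) := by
  have : (⋃ a ∈ s, T a) = {z | ∃ a ∈ s, z ∈ T a} := by
    ext z
    simp
  rw [this]
  exact Constr.bexFinset s hT

theorem chi_biUnion {R : Type} [CommRing R] (M : Meas K R) {ι : Type} [Fintype ι] {α : Type}
    (s : Finset α) (T : α → Set (Pt K ι)) (hT : ∀ a ∈ s, Constr (T a))
    (hd : ∀ a ∈ s, ∀ b ∈ s, a ≠ b → Disjoint (T a) (T b)) :
    M.χ ι (⋃ a ∈ s, T a) = ∑ a ∈ s, M.χ ι (T a) := by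
  classical
  induction s using Finset.induction_on with
  | empty => simpa using chi_empty M
  | insert a s ha ih =>
    rw [Finset.set_biUnion_insert, Finset.sum_insert ha,
      M.add _ _ (hT a (Finset.mem_insert_self _ _))
        (constr_biUnion s T fun b hb => hT b (Finset.mem_insert_of_mem hb)), ih]
    · exact fun b hb => hT b (Finset.mem_insert_of_mem hb)
    · exact fun b hb c hc => hd b (Finset.mem_insert_of_mem hb) c (Finset.mem_insert_of_mem hc)
    · rw [Set.disjoint_iUnion₂_right]
      intro b hb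
      refine hd a (Finset.mem_insert_self _ _) b (Finset.mem_insert_of_mem hb) ?_
      rintro rfl
      exact ha hb

theorem coeff_aeval_congr {K : Type} [Field K] {n : ℕ} (f : MvPolynomial (Fin n) K) (q : ℕ)
    (γ δ : Fin n → PowerSeries (AlgebraicClosure K))
    (h : ∀ i, ∀ k ≤ q, PowerSeries.coeff k (γ i) = PowerSeries.coeff k (δ i)) :
    ∀ k ≤ q, PowerSeries.coeff k (aeval γ f) = PowerSeries.coeff k (aeval δ f) := by
  induction f using MvPolynomial.induction_on with
  | C a =>
    intro k _
    simp only [MvPolynomial.algHom_C]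
  | add p q hp hq =>
    intro k hk
    simp only [map_add, hp k hk, hq k hk]
  | mul_X p i hp =>
    intro k hk
    simp only [map_mul, MvPolynomial.aeval_X, PowerSeries.coeff_mul]
    refine Finset.sum_congr rfl fun ab hab => ?_
    have := Finset.HasAntidiagonal.mem_antidiagonal.1 hab
    rw [hp ab.1 (by omega), h i ab.2 (by omega)]

/-- the jets of level `2 N + 1` -/
def Jet' {n : ℕ} (f : MvPolynomial (Fin n) K) (x : Fin n → K) (N : ℕ) :
    Set (Pt K (Fin n × Fin (2 * N + 1 + 1))) :=
  {z | (∀ i, z (i, 0) = algebraMap K (AlgebraicClosure K) (x i)) ∧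
    ∀ j ≤ N, PowerSeries.coeff j (aeval (arc z) f) = if j = N then 1 else 0}

theorem constr_Jet {n : ℕ} (f : MvPolynomial (Fin n) K) (x : Fin n → K) (N : ℕ) :
    Constr (Jet f x N) := by
  unfold Jet
  refine Constr.and (Constr.all fun i => Constr.eq (IsPF.coord _) (IsPF.const _))
    (Constr.allLe _ fun j _ => ?_)
  refine Constr.eq (IsPA.aeval (fun i z => arc z i) (fun i => isPA_arc i) f j) ?_
  split_ifs
  · exact IsPF.one
  · exact IsPF.zero

theorem constr_Jet' {n : ℕ} (f : MvPolynomial (Fin n) K) (x : Fin n → K) (N : ℕ) :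
    Constr (Jet' f x N) := by
  unfold Jet'
  refine Constr.and (Constr.all fun i => Constr.eq (IsPF.coord _) (IsPF.const _))
    (Constr.allLe _ fun j _ => ?_)
  refine Constr.eq (IsPA.aeval (fun i z => arc z i) (fun i => isPA_arc i) f j) ?_
  split_ifs
  · exact IsPF.one
  · exact IsPF.zero

/-- the coordinates beyond `N` -/
def F1 (n N : ℕ) : Finset (Fin n × Fin (2 * N + 1 + 1)) :=
  Finset.univ.filter fun p => N < (p.2 : ℕ)

theorem card_F1 (n N : ℕ) : (F1 n N).card = n * (N + 1) := by
  have h : F1 n N = (Finset.univ : Finset (Fin n)) ×ˢ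
      (Finset.univ.filter fun j : Fin (2 * N + 1 + 1) => N < (j : ℕ)) := by
    ext p
    simp [F1]
  rw [h, Finset.card_product, Finset.card_univ, Fintype.card_fin]
  congr 1
  have h2 : (Finset.univ.filter fun j : Fin (2 * N + 1 + 1) => N < (j : ℕ)).card =
      (Finset.Ioo N (2 * N + 1 + 1)).card := by
    rw [← Finset.card_map Fin.valEmbedding]
    congr 1
    ext a
    simp only [Finset.mem_map, Finset.mem_filter, Finset.mem_univ, true_and,
      Fin.valEmbedding_apply, Finset.mem_Ioo]
    constructor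
    · rintro ⟨b, hb, rfl⟩
      exact ⟨hb, b.2⟩
    · rintro ⟨h1, h2⟩
      exact ⟨⟨a, h2⟩, h1, rfl⟩
  rw [h2, Nat.card_Ioo]
  omega

theorem jet'_free {n : ℕ} (f : MvPolynomial (Fin n) K) (x : Fin n → K) (N : ℕ)
    (z w : Pt K (Fin n × Fin (2 * N + 1 + 1))) (h : ∀ p, p ∉ F1 n N → w p = z p)
    (hz : z ∈ Jet' f x N) : w ∈ Jet' f x N := by
  obtain ⟨h1, h2⟩ := hz
  refine ⟨fun i => ?_, fun j hj => ?_⟩
  · rw [h (i, 0) (by simp [F1]), h1]
  · rw [coeff_aeval_congr f N (arc w) (arc z) ?_ j hj]
    · exact h2 j hj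
    · intro i k hk
      rw [coeff_arc _ _ _ (by omega), coeff_arc _ _ _ (by omega)]
      exact h _ (by simp only [F1, Finset.mem_filter, Finset.mem_univ, true_and]; omega)

/-- restriction -/
def rs {n : ℕ} (N : ℕ) (z : Pt K (Fin n × Fin (2 * N + 1 + 1))) : Pt K (Fin n × Fin (N + 1)) :=
  fun p => z (p.1, ⟨p.2, by have := p.2.2; omega⟩)

/-- extension by zero -/
noncomputable def ex {n : ℕ} (N : ℕ) (z : Pt K (Fin n × Fin (N + 1))) :
    Pt K (Fin n × Fin (2 * N + 1 + 1)) :=
  fun p => if h : (p.2 : ℕ) < N + 1 then z (p.1, ⟨p.2, h⟩) else 0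

theorem jet_eq {n : ℕ} {R : Type} [CommRing R] (M : Meas K R) (f : MvPolynomial (Fin n) K)
    (x : Fin n → K) (N : ℕ) :
    M.χ _ (Jet' f x N ∩ {z | ∀ p ∈ F1 n N, z p = 0}) = M.χ _ (Jet f x N) := by
  refine M.iso _ _ ((constr_Jet' f x N).inter (Constr.ballFinset _ fun p _ =>
    Constr.eqz (IsPF.coord _))) (constr_Jet f x N) (rs N) (ex N)
    (regularOn_poly (fun p => IsPF.coord _) _) (regularOn_poly (fun p => ?_) _) ?_ ?_ ?_ ?_
  · unfold ex
    by_cases h : (p.2 : ℕ) < N + 1
    · simp only [dif_pos h]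
      exact IsPF.coord _
    · simp only [dif_neg h]
      exact IsPF.zero
  · rintro z ⟨⟨h1, h2⟩, h3⟩
    refine ⟨fun i => ?_, fun j hj => ?_⟩
    · rw [← h1 i]
      rfl
    · rw [coeff_aeval_congr f N (arc (rs N z)) (arc z) ?_ j hj]
      · exact h2 j hj
      · intro i k hk
        rw [coeff_arc _ _ _ (by omega), coeff_arc _ _ _ (by omega)]
        rfl
  · rintro z ⟨h1, h2⟩
    refine ⟨⟨fun i => ?_, fun j hj => ?_⟩, ?_⟩
    · rw [← h1 i]
      rfl
    · rw [coeff_aeval_congr f N (arc (ex N z)) (arc z) ?_ j hj]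
      · exact h2 j hj
      · intro i k hk
        rw [coeff_arc _ _ _ (by omega), coeff_arc _ _ _ (by omega)]
        simp only [ex]
        rw [dif_pos (by omega)]
    · intro p hp
      simp only [F1, Finset.mem_filter, Finset.mem_univ, true_and] at hp
      simp only [ex]
      rw [dif_neg (by omega)]
  · rintro z ⟨-, h3⟩
    funext p
    simp only [ex, rs]
    split_ifs with h
    · rfl
    · exact (h3 p (by simp only [F1, Finset.mem_filter, Finset.mem_univ, true_and]; omega)).symm
  · rintro z -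
    funext p
    simp only [ex, rs]
    rw [dif_pos p.2.2]

theorem jet'_union {n : ℕ} (f : MvPolynomial (Fin n) K) (x : Fin n → K) (J : Finset (Fin n))
    (hJ : ∀ i, i ∈ J ↔ x i = 0) (N : ℕ) (hN : 1 ≤ N) :
    Jet' f x N = ⋃ u ∈ (Fintype.piFinset fun _ : Fin n => Finset.range (N + 2)).filter (Adm J),
      strat f x N u := by
  classical
  ext z
  simp only [Set.mem_iUnion, Finset.mem_filter, Fintype.mem_piFinset, Finset.mem_range,
    exists_prop]
  constructor
  · intro hz
    obtain ⟨h1, h2⟩ := hz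
    have hex : ∀ i, ∃ j, j = N + 1 ∨ PowerSeries.coeff j (arc z i) ≠ 0 := fun i =>
      ⟨N + 1, Or.inl rfl⟩
    have hle : ∀ i, Nat.find (hex i) ≤ N + 1 := fun i => Nat.find_min' (hex i) (Or.inl rfl)
    refine ⟨fun i => Nat.find (hex i), ⟨fun i => Nat.lt_succ_of_le (hle i), fun i => ?_⟩,
      h1, ?_, h2⟩
    · rw [hJ]
      simp only
      rw [ne_eq, Nat.find_eq_zero]
      have h3 : PowerSeries.coeff 0 (arc z i) = algebraMap K (AlgebraicClosure K) (x i) := by
        rw [coeff_arc _ _ _ (by omega)]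
        exact h1 i
      rw [h3]
      constructor
      · intro h
        by_contra h4
        exact h (Or.inr (by simpa using h4))
      · intro h
        rw [h, map_zero]
        rintro (h4 | h4)
        · omega
        · exact h4 rfl
    · intro i
      constructor
      · intro j hj
        have := Nat.find_min (hex i) hj
        push Not at this
        exact this.2
      · intro hi
        rcases Nat.find_spec (hex i) with h | h
        · have hi' : Nat.find (hex i) ≤ N := hi
          omega
        · exact h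
  · rintro ⟨u, -, h1, -, h3⟩
    exact ⟨h1, h3⟩

/-- (JET), from (FREE). -/
theorem Jet.main (h1 : S_Free) : S_Jet := by
  classical
  intro K _ R _ M n f x J hJ N hN
  have e1 := h1 M (Jet' f x N) ∅ (F1 n N) (fun _ => 0) (Finset.disjoint_empty_left _)
    (constr_Jet' f x N) (fun z w h hz => jet'_free f x N z w (fun p hp => h p (by simp) hp) hz)
  simp only [Finset.notMem_empty, false_implies, implies_true, Set.ofPred_true, Set.inter_univ,
    Finset.empty_union, map_zero, Finset.card_empty, pow_zero, mul_one] at e1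
  rw [card_F1, jet_eq] at e1
  rw [← e1, jet'_union f x J hJ N hN]
  refine chi_biUnion M _ _ (fun u _ => constr_strat f x N u) ?_
  intro u hu v hv huv
  rw [Set.disjoint_left]
  rintro z ⟨-, h2, -⟩ ⟨-, h3, -⟩
  apply huv
  simp only [Finset.mem_filter, Fintype.mem_piFinset, Finset.mem_range] at hu hv
  funext i
  rcases lt_trichotomy (u i) (v i) with h | h | h
  · exact absurd ((h3 i).1 _ h) ((h2 i).2 (by have := hv.1 i; omega))
  · exact h
  · exact absurd ((h2 i).1 _ h) ((h3 i).2 (by have := hu.1 i; omega))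

end Pool.Agent.W375.MT
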