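import Pool.Agent.W428.MOT.Stm

/-!
# MT-SHIFT: the substitution `z_i = t ^ (u i) y_i`
-/

set_option autoImplicit false

namespace Pool.Agent.W375.MT

open MvPolynomial
open Pool.Agent.W428.MOT

variable {K : Type} [Field K] {n : ℕ}

theorem coeff_arc {n N : ℕ} (z : Pt K (Fin n × Fin (N + 1))) (i : Fin n) (j : ℕ)
    (h : j < N + 1) : PowerSeries.coeff j (arc z i) = z (i, ⟨j, h⟩) := by
  rw [arc, PowerSeries.coeff_mk, dif_pos h]

theorem coeff_arc' {n N : ℕ} (z : Pt K (Fin n × Fin (N + 1))) (i : Fin n) (j : ℕ)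
    (h : ¬ j < N + 1) : PowerSeries.coeff j (arc z i) = 0 := by
  rw [arc, PowerSeries.coeff_mk, dif_neg h]

/-- `y_i = t ^ (- u i) z_i` -/
noncomputable def sh {M : ℕ} (u : Fin n → ℕ) (z : Pt K (Fin n × Fin (M + 1))) :
    Pt K (Fin n × Fin (M + 1)) :=
  fun p => if h : u p.1 + (p.2 : ℕ) < M + 1 then z (p.1, ⟨u p.1 + (p.2 : ℕ), h⟩) else 0

/-- `z_i = t ^ (u i) y_i` -/
noncomputable def sh' {M : ℕ} (u : Fin n → ℕ) (y : Pt K (Fin n × Fin (M + 1))) :
    Pt K (Fin n × Fin (M + 1)) :=
  fun p => if u p.1 ≤ (p.2 : ℕ) then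
    y (p.1, ⟨(p.2 : ℕ) - u p.1, lt_of_le_of_lt (Nat.sub_le _ _) p.2.2⟩) else 0

theorem arc_sh {M : ℕ} (u : Fin n → ℕ) (z : Pt K (Fin n × Fin (M + 1))) (i : Fin n)
    (h : ∀ j < u i, PowerSeries.coeff j (arc z i) = 0) :
    arc z i = PowerSeries.X ^ u i * arc (sh u z) i := by
  ext j
  rw [PowerSeries.coeff_X_pow_mul']
  split_ifs with h1
  · by_cases hj : j < M + 1
    · rw [coeff_arc _ _ _ hj, coeff_arc _ _ _ (by omega)]
      simp only [sh]
      rw [dif_pos (by omega)]
      congr 2
      apply Fin.ext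
      simp only
      omega
    · rw [coeff_arc' _ _ _ hj]
      by_cases hj' : j - u i < M + 1
      · rw [coeff_arc _ _ _ hj']
        simp only [sh]
        rw [dif_neg (by omega)]
      · rw [coeff_arc' _ _ _ hj']
  · exact h j (by omega)

theorem arc_sh' {M : ℕ} (u : Fin n → ℕ) (y : Pt K (Fin n × Fin (M + 1))) (i : Fin n)
    (h : ∀ j : Fin (M + 1), M - u i < (j : ℕ) → y (i, j) = 0) (hu : u i ≤ M) :
    arc (sh' u y) i = PowerSeries.X ^ u i * arc y i := by
  ext j
  rw [PowerSeries.coeff_X_pow_mul']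
  by_cases hj : j < M + 1
  · rw [coeff_arc _ _ _ hj]
    simp only [sh']
    split_ifs with h1
    · rw [coeff_arc _ _ _ (by omega)]
    · rfl
  · rw [coeff_arc' _ _ _ hj]
    split_ifs with h1
    · by_cases hj' : j - u i < M + 1
      · rw [coeff_arc _ _ _ hj', h _ (by simp only; omega)]
      · rw [coeff_arc' _ _ _ hj']
    · rfl

theorem constr_strat (f : MvPolynomial (Fin n) K) (x : Fin n → K) (N : ℕ) (u : Fin n → ℕ) :
    Constr (strat f x N u) := by
  unfold strat
  refine Constr.and (Constr.all fun i => Constr.eq (IsPF.coord _) (IsPF.const _))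
    (Constr.and (Constr.all fun i => Constr.and (Constr.allLt _ fun j _ => ?_)
      (Constr.imp' fun _ => ?_)) (Constr.allLe _ fun j _ => ?_))
  · exact Constr.eqz (isPA_arc i j)
  · exact (Constr.eqz (isPA_arc i (u i))).not
  · refine Constr.eq (IsPA.aeval (fun i z => arc z i) (fun i => isPA_arc i) f j) ?_
    split_ifs
    · exact IsPF.one
    · exact IsPF.zero

theorem constr_Y0 (x : Fin n → K) (N : ℕ) (u : Fin n → ℕ) : Constr (Y0 x N u) := by
  unfold Y0
  refine Constr.and (Constr.all fun i => Constr.all fun j => Constr.imp' fun _ =>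
      Constr.eqz (IsPF.coord _))
    (Constr.and (Constr.all fun i => Constr.imp' fun _ => (Constr.eqz (IsPF.coord _)).not)
      (Constr.all fun i => Constr.imp' fun _ => Constr.eq (IsPF.coord _) (IsPF.const _)))

theorem IsPA_X_pow_mul {ι : Type} {γ : Pt K ι → PowerSeries (AlgebraicClosure K)} (hγ : IsPA γ)
    (k : ℕ) : IsPA (fun z => PowerSeries.X ^ k * γ z) := (IsPA.X.pow k).mul hγ

theorem constr_shiftCond (f : MvPolynomial (Fin n) K) (N : ℕ) (u : Fin n → ℕ) :
    Constr {y : Pt K (Fin n × Fin (2 * N + 1 + 1)) | ∀ j ≤ N, PowerSeries.coeff j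
        (aeval (fun i => PowerSeries.X ^ u i * arc y i) f) = if j = N then 1 else 0} := by
  refine Constr.allLe _ fun j _ => ?_
  refine Constr.eq (IsPA.aeval (fun i z => PowerSeries.X ^ u i * arc z i)
    (fun i => IsPA_X_pow_mul (isPA_arc i) _) f j) ?_
  split_ifs
  · exact IsPF.one
  · exact IsPF.zero

theorem isPF_sh {M : ℕ} (u : Fin n → ℕ) (p : Fin n × Fin (M + 1)) :
    IsPF (fun z : Pt K (Fin n × Fin (M + 1)) => sh u z p) := by
  unfold sh
  by_cases h : u p.1 + (p.2 : ℕ) < M + 1
  · simp only [dif_pos h]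
    exact IsPF.coord _
  · simp only [dif_neg h]
    exact IsPF.zero

theorem isPF_sh' {M : ℕ} (u : Fin n → ℕ) (p : Fin n × Fin (M + 1)) :
    IsPF (fun z : Pt K (Fin n × Fin (M + 1)) => sh' u z p) := by
  unfold sh'
  by_cases h : u p.1 ≤ (p.2 : ℕ)
  · simp only [if_pos h]
    exact IsPF.coord _
  · simp only [if_neg h]
    exact IsPF.zero

theorem Shift.main : S_Shift := by
  intro K _ R _ M n f x J hJ N hN u hA hu
  have hu0 : ∀ i, x i ≠ 0 → u i = 0 := by
    intro i hi
    by_contra h
    exact hi ((hJ i).1 ((hA i).1 h))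
  have hu1 : ∀ i, x i = 0 → u i ≠ 0 := fun i hi => (hA i).2 ((hJ i).2 hi)
  refine M.iso _ _ (constr_strat f x N u) ((constr_Y0 x N u).inter (constr_shiftCond f N u))
    (sh u) (sh' u) (regularOn_poly (fun p => isPF_sh u p) _)
    (regularOn_poly (fun p => isPF_sh' u p) _) ?_ ?_ ?_ ?_
  · rintro z ⟨h1, h2, h3⟩
    refine ⟨⟨?_, ?_, ?_⟩, ?_⟩
    · intro i j hj
      simp only [sh]
      rw [dif_neg (by have := hu i; omega)]
    · intro i hi
      have := (h2 i).2 hi
      rw [coeff_arc _ _ _ (by omega)] at this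
      simp only [sh]
      rw [dif_pos (by simp only [Fin.val_zero]; omega)]
      simpa using this
    · intro i hi
      have h0 := hu0 i hi
      simp only [sh]
      rw [dif_pos (by simp only [Fin.val_zero]; omega), ← h1 i]
      congr 2
      apply Fin.ext
      simp [h0]
    · intro j hj
      have h4 : (fun i => PowerSeries.X ^ u i * arc (sh u z) i) = arc z := by
        funext i
        exact (arc_sh u z i (h2 i).1).symm
      rw [h4]
      exact h3 j hj
  · rintro y ⟨⟨h1, h2, h3⟩, h4⟩
    have h5 : ∀ i, arc (sh' u y) i = PowerSeries.X ^ u i * arc y i := fun i =>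
      arc_sh' u y i (h1 i) (by have := hu i; omega)
    refine ⟨?_, ?_, ?_⟩
    · intro i
      simp only [sh']
      by_cases hi : x i = 0
      · rw [if_neg (by have := hu1 i hi; simp only [Fin.val_zero]; omega), hi, map_zero]
      · have h0 := hu0 i hi
        rw [if_pos (by simp only [Fin.val_zero]; omega), ← h3 i hi]
        congr 2
        apply Fin.ext
        simp
    · intro i
      rw [h5 i]
      constructor
      · intro j hj
        rw [PowerSeries.coeff_X_pow_mul', if_neg (by omega)]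
      · intro hi
        rw [PowerSeries.coeff_X_pow_mul', if_pos le_rfl, Nat.sub_self,
          coeff_arc _ _ _ (by omega)]
        exact h2 i hi
    · intro j hj
      have h6 : arc (sh' u y) = fun i => PowerSeries.X ^ u i * arc y i := funext h5
      rw [h6]
      exact h4 j hj
  · rintro z ⟨h1, h2, h3⟩
    funext p
    obtain ⟨i, j⟩ := p
    simp only [sh', sh]
    split_ifs with h6 h7
    · congr 2
      apply Fin.ext
      simp only
      omega
    · exfalso
      have := j.2
      omega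
    · have := (h2 i).1 (j : ℕ) (by omega)
      rw [coeff_arc _ _ _ j.2] at this
      exact this.symm
  · rintro y ⟨⟨h1, h2, h3⟩, h4⟩
    funext p
    obtain ⟨i, j⟩ := p
    simp only [sh', sh]
    split_ifs with h6 h7
    · congr 2
      apply Fin.ext
      simp only
      omega
    · omega
    · rw [h1 i j (by have := hu i; omega)]

end Pool.Agent.W375.MT
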